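import Mathlib
import Pool.Agent.H354R2.Pratt

set_option autoImplicit false

/-!
# The least prime with a given digit sum: two of the three conjectured regularities are false

Let `ρ(k)` be the least prime with decimal digit sum `k`.  De Koninck's assertion (b), `ρ(k) ≡ 99 mod 100` for
every `k > 38`, and his assertion (c), `ρ(k) ≡ 999 mod 1000` for every `k > 59`, are both false:
`ρ(86) = 6999999989`, which ends in `89`.  Assertion (c) also fails at a `k` at which (b) holds:
`ρ(260) = 10 ^ 29 - 101`, which ends in `899`.

Proof.  A number below `10 ^ N` has digit sum `9 N - D` exactly if its complement `10 ^ N - 1 - n` has digit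
sum `D`.  For `D = 4`, `N = 10` and for `D = 1`, `N = 29` all numbers with digit sum `D` are listed, the
complements of those which are larger than that of `ρ(k)` fail Fermat's test to the base `2`, and `ρ(k)`
is prime by a certificate of Pratt (checker `Pool.Agent.H354R2.pratt` of the starting library).
-/

namespace Pool.Agent.Results.MP_70678e_nt.SecondAndThirdFail

open Pool.Agent.H354R2

/-- the sum of the decimal digits -/
def digitSum (n : ℕ) : ℕ := (Nat.digits 10 n).sum

/-- `p` is the least prime with digit sum `k` -/
def IsRho (k p : ℕ) : Prop := IsLeast {q : ℕ | q.Prime ∧ digitSum q = k} p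

lemma digitSum_rec (n : ℕ) : digitSum n = n % 10 + digitSum (n / 10) := by
  unfold digitSum
  rcases Nat.eq_zero_or_pos n with h | h
  · subst h
    simp
  · rw [Nat.digits_def' (by norm_num) h]
    simp

/-- the complement has the complementary digit sum -/
lemma digitSum_compl (N : ℕ) : ∀ n, n < 10 ^ N → digitSum (10 ^ N - 1 - n) + digitSum n = 9 * N := by
  induction N with
  | zero =>
    intro n hn
    have : n = 0 := by simpa using hn
    subst this
    simp [digitSum]
  | succ N ih =>
    intro n hn
    have h1 : n / 10 < 10 ^ N := by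
      rw [pow_succ] at hn
      omega
    have h2 := ih (n / 10) h1
    have h3 : 0 < 10 ^ N := by positivity
    have h4 : 10 ^ (N + 1) = 10 * 10 ^ N := by ring
    rw [digitSum_rec (10 ^ (N + 1) - 1 - n), digitSum_rec n]
    have h5 : (10 ^ (N + 1) - 1 - n) % 10 = 9 - n % 10 := by
      rw [h4]
      omega
    have h6 : (10 ^ (N + 1) - 1 - n) / 10 = 10 ^ N - 1 - n / 10 := by
      rw [h4]
      omega
    rw [h5, h6]
    omega

/-- all numbers below `10 ^ N` with digit sum `D` -/
def cands : ℕ → ℕ → List ℕ
  | 0, D => if D = 0 then [0] else []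
  | N + 1, D => (List.range 10).flatMap fun d => if d ≤ D then (cands N (D - d)).map fun r => 10 * r + d else []

lemma mem_cands (N : ℕ) : ∀ r D, r < 10 ^ N → digitSum r = D → r ∈ cands N D := by
  induction N with
  | zero =>
    intro r D hr hD
    have : r = 0 := by simpa using hr
    subst this
    simp [digitSum] at hD
    subst hD
    simp [cands]
  | succ N ih =>
    intro r D hr hD
    have h1 : r / 10 < 10 ^ N := by
      rw [pow_succ] at hr
      omega
    rw [digitSum_rec] at hD
    have h2 := ih (r / 10) (D - r % 10) h1 (by omega)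
    unfold cands
    rw [List.mem_flatMap]
    refine ⟨r % 10, List.mem_range.2 (Nat.mod_lt _ (by norm_num)), ?_⟩
    rw [if_pos (by omega), List.mem_map]
    exact ⟨r / 10, h2, by omega⟩

/-- Fermat's test to the base `2` -/
def fermatFails (n : ℕ) : Bool := decide (powMod n 128 2 (n - 1) 1 % n ≠ 1 % n)

lemma not_prime_of {n : ℕ} (h2 : 2 < n) (hn : n < 2 ^ 128) (h : fermatFails n = true) : ¬ n.Prime := by
  intro hp
  unfold fermatFails at h
  rw [decide_eq_true_eq] at h
  apply h
  haveI : Fact n.Prime := ⟨hp⟩
  have h1 := powMod_spec n 128 2 (n - 1) 1 (by omega)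
  have h3 : ((2 : ℕ) : ZMod n) ≠ 0 := by
    intro h4
    rw [ZMod.natCast_eq_zero_iff] at h4
    exact absurd (Nat.le_of_dvd (by norm_num) h4) (by omega)
  rw [ZMod.pow_card_sub_one_eq_one h3, mul_one] at h1
  exact (ZMod.natCast_eq_natCast_iff _ _ _).1 h1

/-- the check of minimality -/
def check (N D r : ℕ) : Bool := (cands N D).all fun s => decide (s ≤ r) || fermatFails (10 ^ N - 1 - s)

theorem isRho_of (N D p : ℕ) (hN : 10 ^ N ≤ 2 ^ 128) (hp : p.Prime) (hpN : p < 10 ^ N) (hs : digitSum p + D = 9 * N)
    (hD : 2 < digitSum p) (h : check N D (10 ^ N - 1 - p) = true) : IsRho (digitSum p) p := by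
  refine ⟨⟨hp, rfl⟩, fun q hq => ?_⟩
  obtain ⟨hq1, hq2⟩ := hq
  by_contra hcon
  push Not at hcon
  have h1 : digitSum (10 ^ N - 1 - q) = D := by
    have := digitSum_compl N q (hcon.trans hpN)
    omega
  have h2 := mem_cands N (10 ^ N - 1 - q) D (by omega) h1
  unfold check at h
  rw [List.all_eq_true] at h
  have h3 := h _ h2
  rw [Bool.or_eq_true, decide_eq_true_eq] at h3
  rcases h3 with h3 | h3
  · omega
  · have h4 : 10 ^ N - 1 - (10 ^ N - 1 - q) = q := by omega
    rw [h4] at h3
    refine not_prime_of ?_ (by omega) h3 hq1
    have h5 := hq1.two_le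
    rcases Nat.lt_or_ge 2 q with h6 | h6
    · exact h6
    · have h7 : q = 2 := by omega
      subst h7
      have h8 : digitSum 2 = 2 := by decide
      omega

lemma prime_86 : (6999999989 : ℕ).Prime := by
  have h1 : (8231 : ℕ).Prime := by norm_num
  have h2 : (246931 : ℕ).Prime := by norm_num
  refine pratt 6999999989 2 128 [2, 2, 19, 373, 246931] ?_ (by decide +kernel)
  intro q hq
  simp only [List.mem_cons, List.not_mem_nil, or_false] at hq
  rcases hq with h | h | h | h | h <;> subst h <;> first | assumption | norm_num

lemma prime_260 : (10 ^ 29 - 101 : ℕ).Prime := by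
  have h1 : (912491 : ℕ).Prime := by norm_num
  have h2 : (1146452683 : ℕ).Prime := by
    refine pratt 1146452683 5 128 [2, 3, 5939, 32173] ?_ (by decide +kernel)
    intro q hq
    simp only [List.mem_cons, List.not_mem_nil, or_false] at hq
    rcases hq with h | h | h | h <;> subst h <;> norm_num
  have h3 : (57003277 : ℕ).Prime := by
    refine pratt 57003277 2 128 [2, 2, 3, 11, 277, 1559] ?_ (by decide +kernel)
    intro q hq
    simp only [List.mem_cons, List.not_mem_nil, or_false] at hq
    rcases hq with h | h | h | h | h | h <;> subst h <;> norm_num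
  have h4 : (9462543983 : ℕ).Prime := by
    refine pratt 9462543983 5 128 [2, 83, 57003277] ?_ (by decide +kernel)
    intro q hq
    simp only [List.mem_cons, List.not_mem_nil, or_false] at hq
    rcases hq with h | h | h <;> subst h <;> first | assumption | norm_num
  refine pratt (10 ^ 29 - 101) 2 128 [2, 5051, 912491, 1146452683, 9462543983] ?_ (by decide +kernel)
  intro q hq
  simp only [List.mem_cons, List.not_mem_nil, or_false] at hq
  rcases hq with h | h | h | h | h <;> subst h <;> first | assumption | norm_num

theorem rho_86 : IsRho 86 6999999989 := by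
  have h1 : digitSum 6999999989 = 86 := by norm_num [digitSum]
  have h := isRho_of 10 4 6999999989 (by norm_num) prime_86 (by norm_num) (by rw [h1]) (by rw [h1]; norm_num)
    (by decide +kernel)
  rwa [h1] at h

theorem rho_260 : IsRho 260 (10 ^ 29 - 101) := by
  have h1 : digitSum (10 ^ 29 - 101) = 260 := by norm_num [digitSum]
  have h := isRho_of 29 1 (10 ^ 29 - 101) (by norm_num) prime_260 (by norm_num) (by rw [h1]) (by rw [h1]; norm_num)
    (by decide +kernel)
  rwa [h1] at h

/-- **Assertions (b) and (c) are false.**  (1) It is not true that the least prime with digit sum `k` ends in `99` for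
all `k > 38` for which it exists; (2) it is not true that it ends in `999` for all `k > 59` for which it exists.
Moreover `ρ(86) = 6999999989` and `ρ(260) = 10 ^ 29 - 101`. -/
theorem result :
    (¬ ∀ k, 38 < k → ∀ p, IsRho k p → p % 100 = 99) ∧
    (¬ ∀ k, 59 < k → ∀ p, IsRho k p → p % 1000 = 999) ∧
    IsRho 86 6999999989 ∧ IsRho 260 (10 ^ 29 - 101) := by
  refine ⟨fun h => ?_, fun h => ?_, rho_86, rho_260⟩
  · have := h 86 (by norm_num) _ rho_86
    norm_num at this
  · have := h 86 (by norm_num) _ rho_86
    norm_num at this

end Pool.Agent.Results.MP_70678e_nt.SecondAndThirdFail
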